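import Pool.Agent.H60.NCK.Lib

/-!
# Row EXZ: the exits at both ends
-/

set_option autoImplicit false

namespace Pool.Agent.H60.NCK

open Pool.Agent.H48.ER Pool.Agent.H50.NC

theorem pf_EXZ : T_EXZ := by
  intro V G n r t a b x z P S hP hx hz
  obtain ⟨R, hR, hRP, hxS, hRS⟩ := hx
  obtain ⟨T, hT, hTP, hzS, hTS⟩ := hz
  obtain ⟨g, g0, gn, gi, ga, hPg⟩ := hP
  have hRP' := hRP
  have hTP' := hTP
  rw [hPg] at hRP hTP
  obtain ⟨r1, r2, r3⟩ := sub_path g gi ga g0 hR hRP
  have g'i : ∀ i j, i ≤ n → j ≤ n → g (n - i) = g (n - j) → i = j := by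
    intro i j hi hj e
    have := gi _ _ (Nat.sub_le _ _) (Nat.sub_le _ _) e
    omega
  have g'a : ∀ i j, i ≤ n → j ≤ n → (G.Adj (g (n - i)) (g (n - j)) ↔ i + 1 = j ∨ j + 1 = i) := by
    intro i j hi hj
    rw [ga _ _ (Nat.sub_le _ _) (Nat.sub_le _ _)]
    omega
  obtain ⟨t1, t2, t3⟩ := sub_path (fun i => g (n - i)) g'i g'a (by simpa using gn) hT (by
    intro v hv
    obtain ⟨i, hi, rfl⟩ := hTP hv
    exact ⟨n - i, Nat.sub_le _ _, by
      show g (n - (n - i)) = g i
      congr 1; omega⟩)
  have t2' : g (n - t) = z := t2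
  have hR1 : ∀ i, i < r → g i ∈ S := by
    intro i hi
    have h1 : g i ∈ R := by rw [r3]; exact ⟨i, hi.le, rfl⟩
    rcases hRS _ h1 with e | e
    · have := gi i r (by omega) r1 (e.trans r2.symm)
      omega
    · exact e
  have hT1 : ∀ i, n - t < i → i ≤ n → g i ∈ S := by
    intro i hi hin
    have h1 : g i ∈ T := by
      rw [t3]
      exact ⟨n - i, by omega, by
        show g (n - (n - i)) = g i
        congr 1; omega⟩
    rcases hTS _ h1 with e | e
    · have := gi i (n - t) hin (Nat.sub_le _ _) (e.trans t2'.symm)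
      omega
    · exact e
  have hle : r ≤ n - t := by
    by_contra h
    exact hxS (r2 ▸ hT1 r (by omega) r1)
  by_cases c1 : r = n - t
  · refine Or.inl ⟨?_, by omega⟩
    rw [← r2, ← t2', c1]
  · by_cases c2 : r + 1 = n - t
    · refine Or.inr (Or.inl ⟨?_, by omega, ?_⟩)
      · rw [← r2, ← t2', ga _ _ r1 (Nat.sub_le _ _)]
        omega
      · intro v hv
        rw [hPg] at hv
        obtain ⟨i, hi, rfl⟩ := hv
        rcases lt_trichotomy i r with h | h | h
        · exact Or.inr (Or.inr (hR1 i h))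
        · exact Or.inl (by rw [h, r2])
        · by_cases h2 : i = n - t
          · exact Or.inr (Or.inl (by rw [h2, t2']))
          · exact Or.inr (Or.inr (hT1 i (by omega) hi))
    · refine Or.inr (Or.inr ⟨?_, ?_, R, T, hR, hRP', hRS, hT, hTP', hTS, ?_, ?_⟩)
      · intro e
        have := gi r (n - t) r1 (Nat.sub_le _ _) (r2.trans (e.trans t2'.symm))
        exact c1 this
      · rw [← r2, ← t2', ga _ _ r1 (Nat.sub_le _ _)]
        omega
      · rw [Set.disjoint_left]
        intro v hv hv'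
        rw [r3] at hv
        rw [t3] at hv'
        obtain ⟨i, hi, rfl⟩ := hv
        obtain ⟨j, hj, e⟩ := hv'
        have e' : g (n - j) = g i := e
        have := gi _ _ (Nat.sub_le _ _) (by omega) e'
        omega
      · intro u hu v hv
        rw [r3] at hu
        rw [t3] at hv
        obtain ⟨i, hi, rfl⟩ := hu
        obtain ⟨j, hj, e⟩ := hv
        have e' : g (n - j) = v := e
        rw [← e', ga _ _ (by omega) (Nat.sub_le _ _)]
        omega

end Pool.Agent.H60.NCK
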