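import Pool.Agent.H50.NC.Targets

/-!
# Row NCK: a smallest side contains no corner
-/

set_option autoImplicit false

namespace Pool.Agent.H60.NCK

open Pool.Agent.H48.ER Pool.Agent.H50.NC

theorem pf_NCK (hEVS : T_EVS) (hRED : T_RED) (hX3 : T_X3) (hX4 : T_X4) : T_NCK := by
  intro V _ G a b n P i S hh hp hk hS hmin a' b' n' P' j hP'
  have hX := hEVS V G a b n P i S hh hp hS
  have key : ∀ (a' b' : Fin 3 → V) (n' : Fin 3 → ℕ) (P' : Fin 3 → Set V), EPr G a' b' n' P' →
      a' j ∉ S := by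
    intro a' b' n' P' hP' hj
    rcases hRED V G a' b' n' P' S (Xr P i) j hh hp hP' hX hj with h | h | h
    · exact hX3 V G a b n P i S hh hp hk hS h
    · exact hX4 V G a b n P i S hh hp hk hS h
    · obtain ⟨a2, b2, n2, P2, i2, T, hT, hTS, hne⟩ := h
      have h1 := hmin a2 b2 n2 P2 i2 T hT
      have h2 := Set.ncard_lt_ncard (HasSubset.Subset.ssubset_of_ne hTS hne) (Set.toFinite S)
      omega
  refine ⟨key a' b' n' P' hP', key b' a' n' P' ⟨hP'.1.flip, hP'.2⟩⟩

end Pool.Agent.H60.NCK
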