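import Pool.Agent.H60.NCK.Lib

/-!
# Row PAA: two exits on the `a`-side
-/

set_option autoImplicit false

namespace Pool.Agent.H60.NCK

open Pool.Agent.H48.ER Pool.Agent.H50.NC

theorem pf_PAA : T_PAA := by
  intro V G a b n P i j S X r t x z hP hX hij hx hz hS hxz
  obtain ⟨hpr, hev⟩ := hP
  obtain ⟨R, hR, hRP, hxS, hRS⟩ := hx
  obtain ⟨T, hT, hTP, hzS, hTS⟩ := hz
  refine ev2 hX hR hT ?_ ?_ hRS hTS hxS hzS ?_ ?_ hxz
  · rw [Set.disjoint_left]
    intro v h1 h2
    exact hpr.ne_of_mem hij (hRP h1) (hTP h2) rfl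
  · intro u hu v hv
    rw [hpr.adj i j hij u (hRP hu) v (hTP hv)]
    constructor
    · rintro (h | ⟨h1, h2⟩)
      · exact h
      · exfalso
        have e1 : x = b i := end_eq (hpr.ip i) hR hRP (h1 ▸ hu)
        have e2 : z = b j := end_eq (hpr.ip j) hT hTP (h2 ▸ hv)
        exact hxz (by rw [e1, e2]; exact hpr.b_adj hij)
    · exact Or.inl
  · intro e
    exact hS.resolve_left fun h => hxS (e ▸ h)
  · intro e
    exact hS.resolve_right fun h => hzS (e ▸ h)

end Pool.Agent.H60.NCK
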