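import Pool.Agent.H60.NCK.Lib

/-!
# Row PAF: exits on different sides and a full rung
-/

set_option autoImplicit false

namespace Pool.Agent.H60.NCK

open Pool.Agent.H48.ER Pool.Agent.H50.NC

theorem pf_PAF : T_PAF := by
  intro V G a b n P i j f S X r t x z hP hX hij hfi hfj hfS hx hz hxb hza
  obtain ⟨hpr, hev⟩ := hP
  obtain ⟨R, hR, hRP, hxS, hRS⟩ := hx
  obtain ⟨T, hT, hTP, hzS, hTS⟩ := hz
  have hbR : b i ∉ R := fun h => hxb (end_eq (hpr.ip i) hR hRP h)
  have haT : a j ∉ T := fun h => hza (end_eq (hpr.ip j).rev hT hTP h)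
  refine ev3 hX hR (hpr.ip f) hT ?_ ?_ ?_ ?_ ?_ ?_ hRS hfS hTS hxS hzS (hev f)
  · rw [Set.disjoint_left]
    intro v h1 h2
    exact hpr.ne_of_mem hfi.symm (hRP h1) h2 rfl
  · rw [Set.disjoint_left]
    intro v h1 h2
    exact hpr.ne_of_mem hfj h1 (hTP h2) rfl
  · rw [Set.disjoint_left]
    intro v h1 h2
    exact hpr.ne_of_mem hij (hRP h1) (hTP h2) rfl
  · intro u hu v hv
    rw [hpr.adj i f hfi.symm u (hRP hu) v hv]
    constructor
    · rintro (h | ⟨h1, h2⟩)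
      · exact h
      · exact absurd (h1 ▸ hu) hbR
    · exact Or.inl
  · intro u hu v hv
    rw [hpr.adj f j hfj u hu v (hTP hv)]
    constructor
    · rintro (⟨h1, h2⟩ | h)
      · exact absurd (h2 ▸ hv) haT
      · exact h
    · exact Or.inr
  · intro u hu v hv h
    rw [hpr.adj i j hij u (hRP hu) v (hTP hv)] at h
    rcases h with ⟨h1, h2⟩ | ⟨h1, h2⟩
    · exact haT (h2 ▸ hv)
    · exact hbR (h1 ▸ hu)

end Pool.Agent.H60.NCK
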