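import Pool.Agent.H60.NCK.Lib

/-!
# Row PTA: a vertex of the side and an exit on the `a`-side
-/

set_option autoImplicit false

namespace Pool.Agent.H60.NCK

open Pool.Agent.H48.ER Pool.Agent.H50.NC

theorem pf_PTA : T_PTA := by
  intro V G a b n P i j S X T R p r t x hX hT hij haS htT htS hR hp hRS hRT hx
  obtain ⟨hpr, hev⟩ := hT.pr
  obtain ⟨Q, hQ, hQP, hxS, hQS⟩ := hx
  have hX' : ∀ v ∈ Q, v ∈ Xr P i := fun v hv => ⟨j, hij.symm, hQP hv⟩
  have hta : t ≠ a i := fun e => htS (e ▸ haS)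
  refine ev2 hX hR hQ ?_ ?_ hRS hQS htS hxS ?_ ?_ ?_
  · rw [Set.disjoint_left]
    intro v h1 h2
    rcases hRT v h1 with e | e
    · exact hpr.ne_of_mem hij (e ▸ hpr.a_mem i) (hQP h2) rfl
    · exact (hT.ne v e v (hX' v h2)).1 rfl
  · intro u hu v hv
    rcases hRT u hu with e | e
    · rw [e, hpr.adj i j hij _ (hpr.a_mem i) v (hQP hv)]
      constructor
      · rintro (h | ⟨h1, h2⟩)
        · exact h
        · exact absurd h1 (hpr.a_ne_b i i)
      · exact Or.inl
    · constructor
      · intro h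
        exact absurd h (hT.ne u e v (hX' v hv)).2
      · rintro ⟨h1, h2⟩
        have h3 := (hT.ne u e (a j) ⟨j, hij.symm, hpr.a_mem j⟩).2
        rw [h1] at h3
        exact absurd (hpr.a_adj hij) h3
  · intro e
    exact absurd e hta
  · intro _
    exact haS
  · exact (hT.ne t htT x (hX' x hQ.right_mem)).2

end Pool.Agent.H60.NCK
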