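import Pool.Agent.H60.NCK.Lib

/-!
# Row PTF: a vertex of the side, a full rung and an exit on the `b`-side
-/

set_option autoImplicit false

namespace Pool.Agent.H60.NCK

open Pool.Agent.H48.ER Pool.Agent.H50.NC

theorem pf_PTF : T_PTF := by
  intro V G a b n P i j f S X T R p r t x hX hT hij hfi hfj haS hfS htT htS hR hp hRS hRT hx hxa
  obtain ⟨hpr, hev⟩ := hT.pr
  obtain ⟨Q, hQ, hQP, hxS, hQS⟩ := hx
  have haQ : a j ∉ Q := fun h => hxa (end_eq (hpr.ip j).rev hQ hQP h)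
  have hX' : ∀ v ∈ Q, v ∈ Xr P i := fun v hv => ⟨j, hij.symm, hQP hv⟩
  have hXf : ∀ v ∈ P f, v ∈ Xr P i := fun v hv => ⟨f, hfi, hv⟩
  refine ev3 hX hR (hpr.ip f) hQ ?_ ?_ ?_ ?_ ?_ ?_ hRS hfS hQS htS hxS (hev f)
  · rw [Set.disjoint_left]
    intro v h1 h2
    rcases hRT v h1 with e | e
    · exact hpr.ne_of_mem hfi.symm (e ▸ hpr.a_mem i) h2 rfl
    · exact (hT.ne v e v (hXf v h2)).1 rfl
  · rw [Set.disjoint_left]
    intro v h1 h2
    exact hpr.ne_of_mem hfj h1 (hQP h2) rfl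
  · rw [Set.disjoint_left]
    intro v h1 h2
    rcases hRT v h1 with e | e
    · exact hpr.ne_of_mem hij (e ▸ hpr.a_mem i) (hQP h2) rfl
    · exact (hT.ne v e v (hX' v h2)).1 rfl
  · intro u hu v hv
    rcases hRT u hu with e | e
    · rw [e, hpr.adj i f hfi.symm _ (hpr.a_mem i) v hv]
      constructor
      · rintro (h | ⟨h1, h2⟩)
        · exact h
        · exact absurd h1 (hpr.a_ne_b i i)
      · exact Or.inl
    · constructor
      · intro h
        exact absurd h (hT.ne u e v (hXf v hv)).2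
      · rintro ⟨h1, h2⟩
        have h3 := (hT.ne u e (a f) ⟨f, hfi, hpr.a_mem f⟩).2
        rw [h1] at h3
        exact absurd (hpr.a_adj hfi.symm) h3
  · intro u hu v hv
    rw [hpr.adj f j hfj u hu v (hQP hv)]
    constructor
    · rintro (⟨h1, h2⟩ | h)
      · exact absurd (h2 ▸ hv) haQ
      · exact h
    · exact Or.inr
  · intro u hu v hv h
    rcases hRT u hu with e | e
    · rw [e, hpr.adj i j hij _ (hpr.a_mem i) v (hQP hv)] at h
      rcases h with ⟨h1, h2⟩ | ⟨h1, h2⟩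
      · exact haQ (h2 ▸ hv)
      · exact hpr.a_ne_b i i h1
    · exact (hT.ne u e v (hX' v hv)).2 h

end Pool.Agent.H60.NCK
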