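import Pool.Agent.H50.NC.Targets

/-!
# Chordless paths inside chordless paths, paths through a connected set
-/

set_option autoImplicit false

namespace Pool.Agent.H60.NCK

open Pool.Agent.H48.ER Pool.Agent.H50.NC

variable {V : Type} {G : SimpleGraph V}

/-- a chordless path `k` inside a chordless path `g` with the same first vertex is an initial
segment -/
theorem init_of {n r : ℕ} (g k : ℕ → V) (gi : ∀ i j, i ≤ n → j ≤ n → g i = g j → i = j)
    (ga : ∀ i j, i ≤ n → j ≤ n → (G.Adj (g i) (g j) ↔ i + 1 = j ∨ j + 1 = i))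
    (ki : ∀ i j, i ≤ r → j ≤ r → k i = k j → i = j)
    (ka : ∀ i j, i ≤ r → j ≤ r → (G.Adj (k i) (k j) ↔ i + 1 = j ∨ j + 1 = i))
    (h0 : k 0 = g 0) (hs : ∀ i, i ≤ r → ∃ j, j ≤ n ∧ g j = k i) :
    ∀ i, i ≤ r → i ≤ n ∧ k i = g i := by
  intro i
  induction i using Nat.strong_induction_on with
  | _ i ih =>
    intro hi
    rcases Nat.eq_zero_or_pos i with h | h
    · subst h
      exact ⟨Nat.zero_le _, h0⟩
    · obtain ⟨j, hj, hji⟩ := hs i hi
      obtain ⟨h1, h2⟩ := ih (i - 1) (by omega) (by omega)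
      have hadj : G.Adj (k (i - 1)) (k i) := (ka _ _ (by omega) hi).2 (by omega)
      rw [h2, ← hji, ga _ _ h1 hj] at hadj
      rcases hadj with e | e
      · have : j = i := by omega
        subst this
        exact ⟨hj, hji.symm⟩
      · obtain ⟨h3, h4⟩ := ih j (by omega) (by omega)
        rw [hji] at h4
        have := ki _ _ (by omega) hi h4
        omega

/-- the position of a sub-path -/
theorem sub_path {n r : ℕ} {a x : V} {R : Set V} (g : ℕ → V)
    (gi : ∀ i j, i ≤ n → j ≤ n → g i = g j → i = j)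
    (ga : ∀ i j, i ≤ n → j ≤ n → (G.Adj (g i) (g j) ↔ i + 1 = j ∨ j + 1 = i))
    (h0 : g 0 = a) (h : IP G r a x R) (hs : R ⊆ {v | ∃ i, i ≤ n ∧ g i = v}) :
    r ≤ n ∧ g r = x ∧ R = {v | ∃ i, i ≤ r ∧ g i = v} := by
  obtain ⟨k, k0, kr, ki, ka, hR⟩ := h
  have key := init_of g k gi ga ki ka (k0.trans h0.symm) fun i hi => by
    have : k i ∈ R := by rw [hR]; exact ⟨i, hi, rfl⟩
    exact hs this
  refine ⟨(key r le_rfl).1, by rw [← (key r le_rfl).2, kr], ?_⟩
  rw [hR]
  ext v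
  constructor
  · rintro ⟨i, hi, rfl⟩
    exact ⟨i, hi, (key i hi).2.symm⟩
  · rintro ⟨i, hi, rfl⟩
    exact ⟨i, hi, (key i hi).2⟩

/-- a sub-path with the same first vertex which contains the last vertex ends there -/
theorem end_eq {n r : ℕ} {a b x : V} {P R : Set V} (hP : IP G n a b P) (h : IP G r a x R)
    (hs : R ⊆ P) (hb : b ∈ R) : x = b := by
  obtain ⟨g, g0, gn, gi, ga, hPg⟩ := hP
  rw [hPg] at hs
  obtain ⟨h1, h2, h3⟩ := sub_path g gi ga g0 h hs
  rw [h3] at hb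
  obtain ⟨i, hi, e⟩ := hb
  have := gi i n (by omega) le_rfl (e.trans gn.symm)
  have : r = n := by omega
  rw [← h2, this, gn]

/-- the vertex before the last one -/
theorem prev {r : ℕ} {a x : V} {R : Set V} (h : IP G r a x R) (hr : 1 ≤ r) :
    ∃ u ∈ R, u ≠ x ∧ G.Adj x u := by
  obtain ⟨r, rfl⟩ : ∃ r', r = r' + 1 := ⟨r - 1, by omega⟩
  obtain ⟨u, h1, h2, _, _⟩ := h.rev.tail
  exact ⟨u, h2, h1.ne', h1⟩

/-- the last vertex of a path which is otherwise in `S` is a neighbour of `S` -/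
theorem nb_end {S : Set V} {r : ℕ} {a x : V} {R : Set V} (h : IP G r a x R) (hx : x ∉ S)
    (hR : ∀ v ∈ R, v = x ∨ v ∈ S) (h0 : x = a → ∃ s ∈ S, G.Adj a s) : Nb G S x := by
  refine ⟨hx, ?_⟩
  rcases Nat.eq_zero_or_pos r with e | e
  · subst e
    obtain ⟨e, _⟩ := h.eq_of_zero
    obtain ⟨s, hs, ha⟩ := h0 e.symm
    exact ⟨s, hs, by rw [← e]; exact ha⟩
  · obtain ⟨u, h1, h2, h3⟩ := prev h e
    exact ⟨u, (hR u h1).resolve_left h2, h3⟩

/-- two paths through `S` -/
theorem ev2 {S X : Set V} (hX : SX G S X) {r t : ℕ} {a a' x z : V} {R T : Set V}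
    (hR : IP G r a x R) (hT : IP G t a' z T) (hd : Disjoint R T) (he : XE G R T a a')
    (hRS : ∀ v ∈ R, v = x ∨ v ∈ S) (hTS : ∀ v ∈ T, v = z ∨ v ∈ S)
    (hx : x ∉ S) (hz : z ∉ S) (h0 : x = a → a' ∈ S) (h1 : z = a' → a ∈ S)
    (hxz : ¬ G.Adj x z) : Odd (r + t) := by
  have haa : G.Adj a a' := (he a hR.left_mem a' hT.left_mem).2 ⟨rfl, rfl⟩
  have h := hR.rev.append hT hd he
  have nx : Nb G S x := nb_end hR hx hRS fun e => ⟨a', h0 e, haa⟩
  have nz : Nb G S z := nb_end hT hz hTS fun e => ⟨a, h1 e, haa.symm⟩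
  have := hX.ev _ x z _ nx nz hxz h (by
    rintro v (hv | hv)
    · rcases hRS v hv with e | e
      · exact Or.inl e
      · exact Or.inr (Or.inr e)
    · rcases hTS v hv with e | e
      · exact Or.inr (Or.inl e)
      · exact Or.inr (Or.inr e))
  rcases Nat.even_or_odd (r + t) with h2 | h2
  · exfalso
    rcases this with ⟨m, hm⟩
    rcases h2 with ⟨k, hk⟩
    omega
  · exact h2

/-- three paths through `S`; the middle one is inside of `S` -/
theorem ev3 {S X : Set V} (hX : SX G S X) {r m t : ℕ} {a c d b x z : V} {R Q T : Set V}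
    (hR : IP G r a x R) (hQ : IP G m c d Q) (hT : IP G t b z T) (hRQ : Disjoint R Q)
    (hQT : Disjoint Q T) (hRT : Disjoint R T)
    (eRQ : XE G R Q a c) (eQT : XE G Q T d b) (eRT : NE G R T)
    (hRS : ∀ v ∈ R, v = x ∨ v ∈ S) (hQS : Q ⊆ S) (hTS : ∀ v ∈ T, v = z ∨ v ∈ S)
    (hx : x ∉ S) (hz : z ∉ S) (hm : Even m) : Even (r + t) := by
  have hac : G.Adj a c := (eRQ a hR.left_mem c hQ.left_mem).2 ⟨rfl, rfl⟩
  have hdb : G.Adj d b := (eQT d hQ.right_mem b hT.left_mem).2 ⟨rfl, rfl⟩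
  have h1 := hR.rev.append hQ hRQ eRQ
  have h2 := h1.append hT (by
    rw [Set.disjoint_union_left]
    exact ⟨hRT, hQT⟩) (by
    rintro u (hu | hu) v hv
    · constructor
      · intro h
        exact absurd h (eRT u hu v hv)
      · rintro ⟨e1, _⟩
        exact absurd hQ.right_mem fun h => Set.disjoint_left.1 hRQ hu (e1 ▸ h)
    · exact eQT u hu v hv)
  have nx : Nb G S x := nb_end hR hx hRS fun _ => ⟨c, hQS hQ.left_mem, hac⟩
  have nz : Nb G S z := nb_end hT hz hTS fun _ => ⟨d, hQS hQ.right_mem, hdb.symm⟩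
  have h3 := hX.ev _ x z _ nx nz (eRT x hR.right_mem z hT.right_mem) h2 (by
    rintro v ((hv | hv) | hv)
    · rcases hRS v hv with e | e
      · exact Or.inl e
      · exact Or.inr (Or.inr e)
    · exact Or.inr (Or.inr (hQS hv))
    · rcases hTS v hv with e | e
      · exact Or.inr (Or.inl e)
      · exact Or.inr (Or.inr e))
  rcases Nat.even_or_odd (r + t) with h4 | h4
  · exact h4
  · exfalso
    rcases h3 with ⟨k, hk⟩
    rcases hm with ⟨l, hl⟩
    rcases h4 with ⟨q, hq⟩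
    omega

end Pool.Agent.H60.NCK
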